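import Pool.Agent.UniS.Q6
import Pool.Agent.UniS.Q8

/-!
`S_n` is generated unicursally by the transposition of the last two points and the cycle of the
first `n - 1` points, for every even `n` with `6 ≤ n ≤ 8`.
-/

namespace Pool.Agent.Results.MP_c9dba7_co.SixEight

open Equiv UniS

theorem result (n : ℕ) (h6 : 6 ≤ n) (h8 : n ≤ 8) (he : Even n) :
    Unicursal ({genA n (by omega), genB n} : Set (Perm (Fin n))) := by
  have h : n = 6 ∨ n = 8 := by
    obtain ⟨k, hk⟩ := he
    omega
  rcases h with rfl | rfl
  · exact unicursal_of_stepQ (k := 4) hotQ6 oneOrbQ6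
  · exact unicursal_of_stepQ (k := 6) hotQ8 oneOrbQ8

end Pool.Agent.Results.MP_c9dba7_co.SixEight
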